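import Mathlib
import Pool.Agent.Q283.GenusPerm

/-!
# Genus-`g` set partitions of `{1, …, n}` with three blocks
-/

open Finset Equiv Equiv.Perm

namespace Pool.Agent.Results.MP_752880_co.ThreeBlocks

open Pool.Agent.Q283.GenusPerm Pool.Agent.Q283.GenusWords

/-- the partition `r` has genus `g` -/
def HasGenus {n : ℕ} (r : Setoid (Fin n)) (g : ℕ) : Prop :=
  ∃ τ : Perm (Fin n), IsBlockCycle r τ ∧
    Nat.card (Quotient r) + cyc (τ⁻¹ * finRotate n) + 2 * g = n + 1

/-- the number of partitions of an `n`-set into `k` blocks of genus `g` -/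
noncomputable def S (n k g : ℕ) : ℕ :=
  Nat.card {r : Setoid (Fin n) // Nat.card (Quotient r) = k ∧ HasGenus r g}

lemma card_quot {n : ℕ} {w : Fin n → Fin 3} (hw : Function.Surjective w) :
    Nat.card (Quotient (Setoid.ker w)) = 3 := by
  rw [Nat.card_congr (Setoid.quotientKerEquivOfSurjective w hw)]
  simp

lemma genus_iff {N : ℕ} {w : Fin (N + 1) → Fin 3} (hw : Function.Surjective w) (g : ℕ) :
    HasGenus (Setoid.ker w) g ↔ (ch w = 2 * g + 3 ∨ ch w = 2 * g + 4) := by
  unfold HasGenus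
  rw [card_quot hw]
  constructor
  · rintro ⟨τ, hτ, h⟩
    obtain ⟨e, h1, h2, h3, h4, h5⟩ := cyc_beta hτ hw
    omega
  · intro h
    obtain ⟨τ, hτ⟩ := exists_blockCycle (Setoid.ker w)
    obtain ⟨e, h1, h2, h3, h4, h5⟩ := cyc_beta hτ hw
    refine ⟨τ, hτ, ?_⟩
    omega

lemma six_mul (N g : ℕ) : 6 * S (N + 1) 3 g =
    (univ.filter (fun w : Fin (N + 1) → Fin 3 => Function.Surjective w ∧
      (ch w = 2 * g + 3 ∨ ch w = 2 * g + 4))).card := by
  classical
  set R := {r : Setoid (Fin (N + 1)) // Nat.card (Quotient r) = 3 ∧ HasGenus r g} with hR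
  have : Finite (Setoid (Fin (N + 1))) := Finite.of_injective
    (fun r : Setoid (Fin (N + 1)) => (fun i j => r i j : Fin (N + 1) → Fin (N + 1) → Prop)) (by
      intro r r' h
      ext i j
      exact iff_of_eq (congrFun (congrFun h i) j))
  have : Finite R := Subtype.finite
  have : Fintype R := Fintype.ofFinite R
  have hbij : Function.Bijective (fun p : (Σ r : R, Quotient r.1 ≃ Fin 3) =>
      (⟨fun i => p.2 (Quotient.mk p.1.1 i), by
        have hs : Function.Surjective (fun i => p.2 (Quotient.mk p.1.1 i)) :=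
          p.2.surjective.comp Quotient.mk_surjective
        have hk : Setoid.ker (fun i => p.2 (Quotient.mk p.1.1 i)) = p.1.1 := by
          ext i j
          show p.2 (Quotient.mk p.1.1 i) = p.2 (Quotient.mk p.1.1 j) ↔ p.1.1 i j
          rw [p.2.injective.eq_iff]
          exact Quotient.eq
        refine ⟨hs, (genus_iff hs g).mp ?_⟩
        rw [hk]
        exact p.1.2.2⟩ : {w : Fin (N + 1) → Fin 3 // Function.Surjective w ∧
          (ch w = 2 * g + 3 ∨ ch w = 2 * g + 4)})) := by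
    constructor
    · rintro ⟨⟨r, hr⟩, e⟩ ⟨⟨r', hr'⟩, e'⟩ h
      have h1 : ∀ i, e (Quotient.mk r i) = e' (Quotient.mk r' i) :=
        fun i => congrFun (congrArg Subtype.val h) i
      have h2 : r = r' := by
        ext i j
        have a1 : r i j ↔ e (Quotient.mk r i) = e (Quotient.mk r j) := by
          rw [e.injective.eq_iff]; exact Quotient.eq.symm
        have a2 : r' i j ↔ e' (Quotient.mk r' i) = e' (Quotient.mk r' j) := by
          rw [e'.injective.eq_iff]; exact Quotient.eq.symm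
        rw [a1, a2, h1 i, h1 j]
      subst h2
      have h3 : e = e' := by
        ext q
        induction q using Quotient.inductionOn with
        | _ i => rw [h1 i]
      rw [h3]
    · rintro ⟨w, hw, hg⟩
      refine ⟨⟨⟨Setoid.ker w, card_quot hw, (genus_iff hw g).mpr hg⟩,
        Setoid.quotientKerEquivOfSurjective w hw⟩, ?_⟩
      apply Subtype.ext
      funext i
      rfl
  have h1 := Nat.card_congr (Equiv.ofBijective _ hbij)
  rw [Nat.card_sigma] at h1
  have h2 : ∀ r : R, Nat.card (Quotient r.1 ≃ Fin 3) = 6 := by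
    intro r
    have e : Quotient r.1 ≃ Fin 3 := Finite.equivFinOfCardEq r.2.1
    rw [Nat.card_congr (Equiv.equivCongr e (Equiv.refl (Fin 3)))]
    rw [Nat.card_eq_fintype_card]
    decide
  rw [Finset.sum_congr rfl (fun r _ => h2 r), Finset.sum_const, smul_eq_mul,
    Finset.card_univ] at h1
  rw [S, Nat.card_eq_fintype_card, mul_comm, h1, Nat.card_eq_fintype_card,
    Fintype.card_subtype]

/-- The formula for the number of genus-`g` partitions of `[n]` into three blocks. -/
theorem result (n g : ℕ) (hn : 1 ≤ n) :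
    (S n 3 g : ℚ) = (4 ^ (g + 1) - 1) * ((n : ℚ) - g - 1) / (3 * (g + 2)) *
      (n.choose (2 * g + 3) : ℚ) := by
  obtain ⟨N, rfl⟩ : ∃ N, n = N + 1 := ⟨n - 1, by omega⟩
  have h6 := six_mul N g
  have hsplit : (univ.filter (fun w : Fin (N + 1) → Fin 3 => Function.Surjective w ∧
      (ch w = 2 * g + 3 ∨ ch w = 2 * g + 4))).card =
      (univ.filter (fun w : Fin (N + 1) → Fin 3 => Function.Surjective w ∧
        ch w = 2 * g + 3)).card +
      (univ.filter (fun w : Fin (N + 1) → Fin 3 => Function.Surjective w ∧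
        ch w = 2 * g + 4)).card := by
    rw [← Finset.card_union_of_disjoint]
    · congr 1
      ext w
      simp only [Finset.mem_filter, Finset.mem_union, Finset.mem_univ, true_and]
      tauto
    · rw [Finset.disjoint_left]
      intro w h1 h2
      rw [Finset.mem_filter] at h1 h2
      omega
  have c1 := card_surj N (2 * g + 3) (by omega)
  have c2 := card_surj N (2 * g + 4) (by omega)
  have p1 : ((-1 : ℤ)) ^ (2 * g + 3) = -1 := by
    rw [pow_add, pow_mul]; norm_num
  have p2 : ((-1 : ℤ)) ^ (2 * g + 4) = 1 := by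
    rw [pow_add, pow_mul]; norm_num
  have q1 : (2 : ℤ) ^ (2 * g + 3) = 2 * 4 ^ (g + 1) := by
    rw [pow_add, pow_mul, pow_succ]; norm_num; ring
  have q2 : (2 : ℤ) ^ (2 * g + 4) = 4 * 4 ^ (g + 1) := by
    rw [pow_add, pow_mul, pow_succ]; norm_num; ring
  rw [p1, q1] at c1
  rw [p2, q2] at c2
  have h7 : (6 * (S (N + 1) 3 g : ℤ)) = ((N + 1).choose (2 * g + 3) : ℤ) * (2 * 4 ^ (g + 1) - 2) +
      ((N + 1).choose (2 * g + 4) : ℤ) * (4 * 4 ^ (g + 1) - 4) := by
    have : (6 * (S (N + 1) 3 g : ℤ)) = ((univ.filter (fun w : Fin (N + 1) → Fin 3 =>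
        Function.Surjective w ∧ ch w = 2 * g + 3)).card : ℤ) +
      ((univ.filter (fun w : Fin (N + 1) → Fin 3 => Function.Surjective w ∧
        ch w = 2 * g + 4)).card : ℤ) := by
      rw [hsplit] at h6
      exact_mod_cast h6
    rw [this, c1, c2]
    ring
  have h8 : (6 * (S (N + 1) 3 g : ℚ)) = ((N + 1).choose (2 * g + 3) : ℚ) * (2 * 4 ^ (g + 1) - 2) +
      ((N + 1).choose (2 * g + 4) : ℚ) * (4 * 4 ^ (g + 1) - 4) := by
    exact_mod_cast congrArg (fun z : ℤ => (z : ℚ)) h7
  have h9 : ((N + 1).choose (2 * g + 4) : ℚ) * (2 * g + 4) =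
      ((N + 1).choose (2 * g + 3) : ℚ) * ((N : ℚ) + 1 - (2 * g + 3)) := by
    have h := Nat.choose_succ_right_eq (N + 1) (2 * g + 3)
    by_cases hle : 2 * g + 3 ≤ N + 1
    · have h' : (((N + 1).choose (2 * g + 3 + 1) * (2 * g + 3 + 1) : ℕ) : ℚ) =
          (((N + 1).choose (2 * g + 3) * (N + 1 - (2 * g + 3)) : ℕ) : ℚ) := by rw [h]
      rw [Nat.cast_mul, Nat.cast_mul, Nat.cast_sub hle] at h'
      push_cast at h'
      have e : (2 * (g : ℚ) + 3 + 1) = 2 * g + 4 := by ring
      rw [e] at h'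
      exact h'
    · have z1 : (N + 1).choose (2 * g + 3) = 0 := Nat.choose_eq_zero_of_lt (by omega)
      have z2 : (N + 1).choose (2 * g + 4) = 0 := Nat.choose_eq_zero_of_lt (by omega)
      rw [z1, z2]
      simp
  have hg : (0 : ℚ) < (g : ℚ) + 2 := by positivity
  have h10 : ((N + 1).choose (2 * g + 4) : ℚ) =
      ((N + 1).choose (2 * g + 3) : ℚ) * ((N : ℚ) + 1 - (2 * g + 3)) / (2 * g + 4) := by
    rw [eq_div_iff (by positivity)]
    exact h9
  rw [h10] at h8
  have h11 : (S (N + 1) 3 g : ℚ) = (((N + 1).choose (2 * g + 3) : ℚ) * (2 * 4 ^ (g + 1) - 2) +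
      ((N + 1).choose (2 * g + 3) : ℚ) * ((N : ℚ) + 1 - (2 * g + 3)) / (2 * g + 4) *
        (4 * 4 ^ (g + 1) - 4)) / 6 := by
    rw [← h8]; ring
  rw [h11]
  push_cast
  generalize ((N + 1).choose (2 * g + 3) : ℚ) = c
  generalize (4 : ℚ) ^ (g + 1) = q
  have e : (2 * (g : ℚ) + 4) = 2 * (g + 2) := by ring
  rw [e]
  field_simp
  ring

end Pool.Agent.Results.MP_752880_co.ThreeBlocks
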